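import Pool.Agent.H867.FT.Gen4
import Pool.Agent.H127.FT867REF
import Pool.Agent.H975.FT867POW
import Pool.Agent.H286.FT867TRC
import Pool.Agent.H261.FT867RGS
import Pool.Agent.H738.FT867KRU

/-!
# EXT2: the canonical class of the extremal example is not torsion
-/

set_option autoImplicit false

namespace Pool.Agent.H706.FT867EXT2

open MvPowerSeries Pool.Agent.H867.FT

/-! ## The power series ring -/

section PS

variable {k : Type} [Field k] {D : ℕ}

theorem Xne (i : Fin D) : (X i : MvPowerSeries (Fin D) k) ≠ 0 := by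
  classical
  intro h
  have e := congrArg (coeff (Finsupp.single i 1)) h
  rw [coeff_index_single_self_X, map_zero] at e
  exact one_ne_zero e

theorem X_nmem_one (i j : Fin D) (h : i ≠ j) :
    (X j : MvPowerSeries (Fin D) k) ∉ Ideal.span {(X i : MvPowerSeries (Fin D) k)} := by
  classical
  intro hm
  rw [Ideal.mem_span_singleton, X_dvd_iff] at hm
  have := hm (Finsupp.single j 1) (by rw [Finsupp.single_apply, if_neg (Ne.symm h)])
  rw [coeff_index_single_self_X] at this
  exact one_ne_zero this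

theorem X_nmem_two (i₀ i₁ j : Fin D) (h0 : i₀ ≠ j) (h1 : i₁ ≠ j) :
    (X j : MvPowerSeries (Fin D) k) ∉
      Ideal.span {(X i₀ : MvPowerSeries (Fin D) k), X i₁} := by
  classical
  intro hm
  obtain ⟨a, b, hab⟩ := Ideal.mem_span_pair.1 hm
  have e := congrArg (coeff (Finsupp.single j 1)) hab
  rw [map_add, coeff_index_single_self_X] at e
  have e0 : coeff (Finsupp.single j 1) (a * X i₀) = 0 :=
    X_dvd_iff.1 (Dvd.intro_left a rfl) _ (by rw [Finsupp.single_apply, if_neg (Ne.symm h0)])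
  have e1 : coeff (Finsupp.single j 1) (b * X i₁) = 0 :=
    X_dvd_iff.1 (Dvd.intro_left b rfl) _ (by rw [Finsupp.single_apply, if_neg (Ne.symm h1)])
  rw [e0, e1, add_zero] at e
  exact one_ne_zero e.symm

/-- A height one prime does not contain two different variables. -/
theorem height_one (i j : Fin D) (h : i ≠ j) (𝔭 : Ideal (MvPowerSeries (Fin D) k))
    (hp : 𝔭.IsPrime) (h1 : 𝔭.height = 1) (hi : (X i : MvPowerSeries (Fin D) k) ∈ 𝔭)
    (hj : (X j : MvPowerSeries (Fin D) k) ∈ 𝔭) : False := by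
  have := hp
  have : (Ideal.span {(X i : MvPowerSeries (Fin D) k)}).IsPrime :=
    Pool.Agent.H261.FT867RGS.prime_one i
  have : (⊥ : Ideal (MvPowerSeries (Fin D) k)).IsPrime := Ideal.isPrime_bot
  have l1 : (⊥ : Ideal (MvPowerSeries (Fin D) k)) < Ideal.span {(X i : MvPowerSeries (Fin D) k)} := by
    rw [bot_lt_iff_ne_bot]
    intro hb
    rw [Ideal.span_singleton_eq_bot] at hb
    exact Xne i hb
  have l2 : Ideal.span {(X i : MvPowerSeries (Fin D) k)} < 𝔭 := by
    refine lt_of_le_of_ne ?_ ?_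
    · rw [Ideal.span_le, Set.singleton_subset_iff]
      exact hi
    · intro he
      rw [← he] at hj
      exact X_nmem_one i j h hj
  have k1 := Ideal.height_add_one_le_of_lt_of_isPrime l1
  have k2 := Ideal.height_add_one_le_of_lt_of_isPrime l2
  rw [h1] at k2
  have k3 : (1 : ℕ∞) ≤ (Ideal.span {(X i : MvPowerSeries (Fin D) k)}).height :=
    le_trans le_add_self k1
  have k4 : (1 : ℕ∞) + 1 ≤ 1 := le_trans (add_le_add_left k3 1) k2
  exact absurd k4 (by decide)

end PS

/-! ## Submodules -/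

section Sub

variable {R K : Type} [CommRing R] [IsDomain R] [Field K] [Algebra R K] [IsFractionRing R K]

theorem inv_pow_le (C : Submodule R K) (n : ℕ) : (1 / C) ^ n ≤ 1 / C ^ n := by
  rw [Submodule.le_div_iff_mul_le, ← mul_pow]
  have h : (1 / C) * C ≤ 1 := Submodule.le_div_iff_mul_le.1 le_rfl
  calc ((1 / C) * C) ^ n ≤ 1 ^ n := pow_le_pow_left' h n
    _ = 1 := one_pow n

/-- If `v ∈ C`, `w ∈ 1/C`, `t ∈ 1/(1/C^n)` then `(v w)^n t ∈ C^n`. -/
theorem pull (C : Submodule R K) (n : ℕ) (v w t : K) (hv : v ∈ C) (hw : w ∈ 1 / C)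
    (ht : t ∈ 1 / (1 / C ^ n)) : (v * w) ^ n * t ∈ C ^ n := by
  have h1 : w ^ n ∈ 1 / C ^ n := inv_pow_le C n (Submodule.pow_mem_pow _ hw n)
  have h2 : t * w ^ n ∈ (1 : Submodule R K) := Submodule.mem_div_iff_forall_mul_mem.1 ht _ h1
  obtain ⟨r, hr⟩ := Submodule.mem_one.1 h2
  have h3 : (v * w) ^ n * t = r • v ^ n := by
    rw [Algebra.smul_def, hr, mul_pow]
    ring
  rw [h3]
  exact Submodule.smul_mem _ _ (Submodule.pow_mem_pow _ hv n)

/-- If `C ^ (N + 1) = s R`, `s ≠ 0`, then `C` is invertible. -/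
theorem invertible (C : Submodule R K) (N : ℕ) (s : K) (hs : s ≠ 0) (h1 : s ∈ C ^ (N + 1))
    (h2 : C ^ (N + 1) ≤ Submodule.span R {s}) : (1 : K) ∈ C * (1 / C) := by
  have h3 : Submodule.span R {s⁻¹} * C ^ N ≤ 1 / C := by
    rw [Submodule.le_div_iff_mul_le, mul_assoc, ← pow_succ]
    calc Submodule.span R {s⁻¹} * C ^ (N + 1) ≤ Submodule.span R {s⁻¹} * Submodule.span R {s} :=
          mul_le_mul_right h2 _
      _ = Submodule.span R {1} := by
          rw [Submodule.span_mul_span, Set.singleton_mul_singleton, inv_mul_cancel₀ hs]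
      _ = 1 := Submodule.one_eq_span.symm
  have h4 : (1 : K) ∈ Submodule.span R {s⁻¹} * C ^ (N + 1) := by
    rw [← inv_mul_cancel₀ hs]
    exact Submodule.mul_mem_mul (Submodule.mem_span_singleton_self _) h1
  rw [pow_succ, ← mul_assoc] at h4
  rw [mul_comm]
  exact (mul_le_mul_left h3 C) h4

end Sub

theorem v2 (m : ℕ) : ((2 : Fin (m + 3)) : ℕ) = 2 :=
  Nat.mod_eq_of_lt (show 2 < m + 2 + 1 by omega)

/-- Three elements with unit differences. -/
theorem units {k : Type} [Field k] [Infinite k] {D : ℕ} :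
    ∃ l : Fin 3 → MvPowerSeries (Fin D) k, ∀ i j, i ≠ j → IsUnit (l i - l j) := by
  refine ⟨fun i => C (Infinite.natEmbedding k (i : ℕ)), fun i j hij => ?_⟩
  have h : Infinite.natEmbedding k (i : ℕ) - Infinite.natEmbedding k (j : ℕ) ≠ 0 := by
    rw [sub_ne_zero]
    intro he
    exact hij (Fin.ext ((Infinite.natEmbedding k).injective he))
  have h2 := (isUnit_iff_ne_zero.2 h).map (C (σ := Fin D) (R := k))
  rwa [map_sub] at h2

/-- `K` is spanned by `1, x, x²`. -/
theorem gen {P R L K : Type} [CommRing P] [IsDomain P] [CommRing R] [IsDomain R]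
    [IsIntegrallyClosed R] [Algebra P R] [Module.Finite P R] [Field L] [Algebra P L]
    [IsFractionRing P L] [Field K] [Algebra R K] [IsFractionRing R K] [Algebra P K]
    [IsScalarTower P R K] [Algebra L K] [IsScalarTower P L K] [FiniteDimensional L K]
    (C : Submodule R K) (a b c d : P) (x y₀ : K) (ω θ : R)
    (h : IsCub L C a b c d x y₀ ω θ) (z : K) :
    ∃ l₀ l₁ l₂ : L, z = algebraMap L K l₀ + algebraMap L K l₁ * x + algebraMap L K l₂ * x ^ 2 := by
  have h1 : IsAlgebraic P z :=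
    (IsFractionRing.isAlgebraic_iff P L K).2 (Algebra.IsAlgebraic.isAlgebraic z)
  obtain ⟨p, hp, hpz⟩ := h1.exists_integral_multiple
  have h2 : IsIntegral R (p • z) := hpz.tower_top
  obtain ⟨r, hr⟩ := IsIntegrallyClosed.isIntegral_iff.1 h2
  obtain ⟨r₀, r₁, r₂, rfl⟩ := h.gen r
  have hpL : algebraMap P L p ≠ 0 := by
    intro h0
    exact hp ((injective_iff_map_eq_zero _).1 (IsFractionRing.injective P L) _ h0)
  have hpK : algebraMap L K (algebraMap P L p) ≠ 0 := by
    intro h0
    exact hpL ((_root_.map_eq_zero _).1 h0)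
  refine ⟨(algebraMap P L r₀ + algebraMap P L r₂ * algebraMap P L c) / algebraMap P L p,
    (algebraMap P L r₁ * algebraMap P L a + algebraMap P L r₂ * algebraMap P L b) /
      algebraMap P L p, (algebraMap P L r₂ * algebraMap P L a) / algebraMap P L p, ?_⟩
  have e1 : ∀ g : P, algebraMap R K (algebraMap P R g) = algebraMap L K (algebraMap P L g) := by
    intro g
    rw [← IsScalarTower.algebraMap_apply P R K, ← IsScalarTower.algebraMap_apply P L K]
  have e2 : ∀ g : P, algebraMap P K g = algebraMap L K (algebraMap P L g) := fun g =>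
    IsScalarTower.algebraMap_apply P L K g
  have hr' : algebraMap L K (algebraMap P L r₀) + algebraMap L K (algebraMap P L r₁) *
      (algebraMap L K (algebraMap P L a) * x) + algebraMap L K (algebraMap P L r₂) *
      (algebraMap L K (algebraMap P L a) * x ^ 2 + algebraMap L K (algebraMap P L b) * x +
        algebraMap L K (algebraMap P L c)) = algebraMap L K (algebraMap P L p) * z := by
    rw [← e2, ← e2, ← e2, ← e2, ← e2, ← e2, ← e2, ← h.hω, ← h.hθ, ← Algebra.smul_def p z, ← hr]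
    simp only [map_add, map_mul, Algebra.smul_def, e1, e2]
  simp only [map_add, map_mul, map_div₀]
  field_simp
  linear_combination -hr'

theorem ext2 : S_EXT2 := by
  classical
  intro k _ _ m R L K _ _ _ _ _ _ _ _ _ _ _ _ _ _ _ _ _ _ C x y₀ ω θ hN hI hcub hC n t hn heq
  have : IsDomain (MvPowerSeries (Fin (m + 3)) k) := NoZeroDivisors.to_isDomain _
  have hroot := hcub.root
  rw [map_zero, zero_mul, add_zero] at hroot
  have hω := hcub.hω
  have hθ := hcub.hθ
  rw [map_zero, zero_mul, add_zero] at hθ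
  have hy := hcub.hy
  -- `θ x = - X_2`
  have hθx : algebraMap R K θ * x = - algebraMap (MvPowerSeries (Fin (m + 3)) k) K (X 2) := by
    rw [hθ]
    linear_combination hroot
  have hPRK : ∀ g : MvPowerSeries (Fin (m + 3)) k, algebraMap R K
      (algebraMap (MvPowerSeries (Fin (m + 3)) k) R g) =
      algebraMap (MvPowerSeries (Fin (m + 3)) k) K g := fun g =>
    (IsScalarTower.algebraMap_apply _ R K g).symm
  have hv1 : y₀ ∈ C := (hcub.hC _).2 ⟨1, 0, 0, by simp⟩
  have hv2 : y₀ * x ∈ C := (hcub.hC _).2 ⟨0, 1, 0, by simp⟩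
  have hw1 : algebraMap (MvPowerSeries (Fin (m + 3)) k) K (X 0) / y₀ ∈ 1 / C := by
    rw [Submodule.mem_div_iff_forall_mul_mem]
    intro y hy'
    obtain ⟨g₀, g₁, g₂, rfl⟩ := (hcub.hC y).1 hy'
    refine Submodule.mem_one.2 ⟨algebraMap _ R (X 0 * g₀) + algebraMap _ R g₁ * ω +
      algebraMap _ R (X 0 * g₂) * θ, ?_⟩
    simp only [map_add, map_mul, hPRK, hω]
    field_simp
  have hw2 : -(algebraMap R K θ) / y₀ ∈ 1 / C := by
    rw [Submodule.mem_div_iff_forall_mul_mem]
    intro y hy'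
    obtain ⟨g₀, g₁, g₂, rfl⟩ := (hcub.hC y).1 hy'
    refine Submodule.mem_one.2 ⟨-(algebraMap _ R g₀ * θ) + algebraMap _ R (g₁ * X 2) -
      algebraMap _ R g₂ * θ ^ 2, ?_⟩
    simp only [map_add, map_mul, map_sub, map_neg, map_pow, hPRK]
    field_simp
    linear_combination (algebraMap (MvPowerSeries (Fin (m + 3)) k) K g₁) * hθx
  have ht : t ∈ 1 / (1 / C ^ n) := by
    rw [heq]
    exact Submodule.mem_span_singleton_self t
  have c0 : algebraMap (MvPowerSeries (Fin (m + 3)) k) K (X 0) ^ n * t ∈ C ^ n := by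
    have h := pull C n _ _ t hv1 hw1 ht
    rwa [mul_div_cancel₀ _ hy] at h
  have c2 : algebraMap (MvPowerSeries (Fin (m + 3)) k) K (X 2) ^ n * t ∈ C ^ n := by
    have h := pull C n _ _ t hv2 hw2 ht
    have e : y₀ * x * (-(algebraMap R K θ) / y₀) =
        algebraMap (MvPowerSeries (Fin (m + 3)) k) K (X 2) := by
      field_simp
      linear_combination -hθx
    rwa [e] at h
  have hle : C ^ n ≤ Submodule.span R {t} := by
    rw [← heq, Submodule.le_div_iff_mul_le, mul_comm]
    exact Submodule.le_div_iff_mul_le.1 le_rfl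
  have hle3 : C ^ (n * 3) ≤ Submodule.span R {t ^ 3} := by
    have h := pow_le_pow_left' hle 3
    rwa [← pow_mul, Submodule.span_pow, Set.singleton_pow] at h
  have ht0 : t ≠ 0 := by
    intro h0
    have h := hle (Submodule.pow_mem_pow _ hv1 n)
    rw [h0, Submodule.span_zero_singleton, Submodule.mem_bot] at h
    exact pow_ne_zero n hy h
  have ht3 : t ^ 3 ≠ 0 := pow_ne_zero 3 ht0
  have hN2 : 2 ≤ n * 3 := by omega
  have hpow := Pool.Agent.H975.FTPow.pow (MvPowerSeries (Fin (m + 3)) k) R K C _ _ _ _ x y₀ ω θ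
    hcub.hy hcub.root hcub.hω hcub.hθ hcub.gen hcub.hC (n * 3) hN2
  have hyN : y₀ ^ (n * 3) ≠ 0 := pow_ne_zero _ hy
  have key : ∀ g : MvPowerSeries (Fin (m + 3)) k,
      algebraMap (MvPowerSeries (Fin (m + 3)) k) K g ^ n * t ∈ C ^ n →
      algebraMap (MvPowerSeries (Fin (m + 3)) k) K (g ^ (n * 3)) * (t ^ 3 / y₀ ^ (n * 3)) ∈
        Submodule.span (MvPowerSeries (Fin (m + 3)) k)
          (Set.range fun i : Fin (n * 3 + 1) => x ^ (i : ℕ)) := by
    intro g hg
    have h := Submodule.pow_mem_pow _ hg 3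
    rw [← pow_mul, mul_pow, ← pow_mul, hpow] at h
    obtain ⟨m', hm', hm2⟩ := h
    rw [map_pow, ← mul_div_assoc, hm2, mul_div_cancel_left₀ _ hyN]
    exact hm'
  obtain ⟨l, hl⟩ := units (k := k) (D := m + 3)
  have h01 : (0 : Fin (m + 3)) ≠ 1 := by
    intro h
    have := congrArg Fin.val h
    simp at this
  have h02 : (0 : Fin (m + 3)) ≠ 2 := by
    intro h
    have h3 : ((2 : Fin (m + 3)) : ℕ) = 2 := v2 m
    have h4 := congrArg Fin.val h
    rw [h3] at h4
    simp at h4
  have h12 : (1 : Fin (m + 3)) ≠ 2 := by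
    intro h
    have h3 : ((2 : Fin (m + 3)) : ℕ) = 2 := v2 m
    have h4 := congrArg Fin.val h
    rw [h3] at h4
    simp at h4
  have p0 := Pool.Agent.H261.FT867RGS.prime_one (k := k) (0 : Fin (m + 3))
  have p01 := Pool.Agent.H261.FT867RGS.prime_two (k := k) (0 : Fin (m + 3)) 1
  have hu := Pool.Agent.H127.FT867REF.ref Pool.Agent.H738.FT867KRU.kru
    (MvPowerSeries (Fin (m + 3)) k) L K (X 0) 0 (X 1) (X 2) x (n * 3) ![X 0, X 1, X 2] l hN2
    hcub.ha hcub.root hcub.ind (gen C _ _ _ _ x y₀ ω θ hcub) (by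
      intro i
      fin_cases i
      · exact Ideal.subset_span (by simp)
      · exact Ideal.subset_span (by simp)
      · exact Ideal.subset_span (by simp)) (Xne 0) (by
      intro u hu
      change X 0 ∣ X 1 * u at hu
      change X 0 ∣ u
      rw [← Ideal.mem_span_singleton] at hu ⊢
      exact (p0.mem_or_mem hu).resolve_left (X_nmem_one 0 1 h01)) (by
      intro u hu
      change X 2 * u ∈ Ideal.span {X 0, X 1} at hu
      change u ∈ Ideal.span {X 0, X 1}
      exact (p01.mem_or_mem hu).resolve_left (X_nmem_two 0 1 2 h02 h12)) hl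
    (t ^ 3 / y₀ ^ (n * 3)) (by
      intro 𝔭 h𝔭 hh
      by_cases h0 : (X 0 : MvPowerSeries (Fin (m + 3)) k) ∈ 𝔭
      · refine ⟨X 2 ^ (n * 3), fun h2 => ?_, key _ c2⟩
        exact height_one 0 2 h02 𝔭 h𝔭 hh h0 (h𝔭.mem_of_pow_mem _ h2)
      · exact ⟨X 0 ^ (n * 3), fun h2 => h0 (h𝔭.mem_of_pow_mem _ h2), key _ c0⟩)
  have htN : t ^ 3 ∈ C ^ (n * 3) := by
    rw [hpow]
    exact ⟨_, hu, by rw [mul_div_cancel₀ _ hyN]⟩
  have hone : (1 : K) ∈ C * (1 / C) := by
    have e : n * 3 = (n * 3 - 1) + 1 := by omega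
    rw [e] at htN hle3
    exact invertible C _ _ ht3 htN hle3
  have hfin := Pool.Agent.H286.FT867TRC.trc (MvPowerSeries (Fin (m + 3)) k) R L K C _ _ _ _ x y₀
    ω θ hcub.ha hcub.hy hcub.root hcub.hω hcub.hθ hcub.gen hcub.ind hcub.hC 1
    (by rw [map_one]; exact hone)
  have hker : Ideal.span {(X 0 : MvPowerSeries (Fin (m + 3)) k), 0, X 1, X 2} ≤
      RingHom.ker (constantCoeff (σ := Fin (m + 3)) (R := k)) := by
    rw [Ideal.span_le]
    intro g hg
    simp only [Set.mem_insert_iff, Set.mem_singleton_iff] at hg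
    rcases hg with rfl | rfl | rfl | rfl
    · exact constantCoeff_X _
    · exact map_zero _
    · exact constantCoeff_X _
    · exact constantCoeff_X _
  have h1 := hker hfin
  rw [RingHom.mem_ker, map_one] at h1
  exact one_ne_zero h1

end Pool.Agent.H706.FT867EXT2
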